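import Pool.Agent.Y853.OP.Main

/-! Euler products, orders, and the holomorphy at one point. -/

set_option autoImplicit false

namespace Pool.Agent.Y853.OP

open Complex Filter Topology ComplexConjugate Pool.Agent.W540.BE Pool.Agent.Y792.FL Polynomial

set_option linter.unusedSectionVars false

variable {P : Type*} [DecidableEq P] {N : P → ℕ}

/-- the Euler product -/
theorem euler (hN : NormSys N) {n m : ℕ} {S : Finset P} {γ : P → Fin n → ℂ} {δ : P → Fin m → ℂ}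
    (hb : ∀ v ∉ S, ∀ j l, ‖γ v j‖ * ‖δ v l‖ < N v)
    (hγ : ∀ σ : ℝ, 1 < σ → L2 (wt N σ) (coef N S γ 0))
    (hδ : ∀ σ : ℝ, 1 < σ → L2 (wt N σ) (coef N S δ 0)) {s : ℂ} (hs : 1 < s.re) :
    (∏' v, if v ∈ S then (1 : ℂ) else ∏ j, ∏ l,
      (1 - γ v j * conj (δ v l) * ((N v : ℕ) : ℂ) ^ (-s))⁻¹) =
      E N (coef N S γ 0) (coef N S δ 0) s := by
  classical
  set B : P → ℂ[X] := fun v => if v ∈ S then 1 else ∏ j, ∏ l, (1 - C (γ v j * conj (δ v l)) * X)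
    with hB
  have hBe : ∀ v ∉ S, ∀ z : ℂ, (B v).eval z = ∏ j, ∏ l, (1 - γ v j * conj (δ v l) * z) := by
    intro v hv z
    rw [hB]
    simp only [hv, if_false]
    rw [Polynomial.eval_prod]
    refine Finset.prod_congr rfl fun j _ => ?_
    rw [Polynomial.eval_prod]
    refine Finset.prod_congr rfl fun l _ => ?_
    simp
  have hε : 0 < s.re - 1 := by linarith
  have h1 := euler_eq hN hb hε (by rw [add_sub_cancel]; exact hγ _ hs)
    (by rw [add_sub_cancel]; exact hδ _ hs) s.im B hBe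
  have h2 : (1 + s.im * I + (s.re - 1 : ℝ) : ℂ) = s := by
    apply Complex.ext <;> simp
  rw [h2] at h1
  have h3 : ∏ v ∈ S, ((B v).eval (((N v : ℕ) : ℂ) ^ (-s)))⁻¹ = 1 := by
    refine Finset.prod_eq_one fun v hv => ?_
    rw [hB]
    simp [hv]
  rw [h3, one_mul] at h1
  have h4 : ∀ v, (if v ∈ S then (1 : ℂ) else ∏ j, ∏ l,
      (1 - γ v j * conj (δ v l) * ((N v : ℕ) : ℂ) ^ (-s))⁻¹) =
      ((B v).eval (((N v : ℕ) : ℂ) ^ (-s)))⁻¹ := by
    intro v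
    by_cases hv : v ∈ S
    · rw [if_pos hv, hB]
      simp [hv]
    · rw [if_neg hv, hBe v hv, ← Finset.prod_inv_distrib]
      refine Finset.prod_congr rfl fun j _ => ?_
      rw [← Finset.prod_inv_distrib]
  rw [tprod_congr h4, h1]
  unfold E Z
  congr 1
  refine tsum_congr fun x => ?_
  have h5 := W_shift hN S γ δ 0 s.im ((s.re : ℝ) : ℂ) x
  rw [W_ofReal] at h5
  have h6 : (((s.re : ℝ) : ℂ) + ((s.im : ℝ) - ((0 : ℝ) : ℂ)) * I) = s := by
    apply Complex.ext <;> simp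
  rw [h6] at h5
  have h7 : (1 + (s.re - 1) : ℝ) = s.re := by ring
  rw [h7, h5]

/-- shifts -/
theorem E_shift (hN : NormSys N) {n m : ℕ} (S : Finset P) (γ : P → Fin n → ℂ) (δ : P → Fin m → ℂ)
    (τ τ' : ℝ) (s : ℂ) : E N (coef N S γ τ) (coef N S δ τ') s =
      E N (coef N S γ 0) (coef N S δ 0) (s + (τ' - τ) * I) := by
  unfold E Z
  congr 1
  exact tsum_congr fun x => W_shift hN S γ δ τ τ' s x

/-- the order of a meromorphic continuation -/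
theorem order_iff (L : ℂ → ℂ) (τ : ℝ) (d : ℤ) :
    (∃ Λ : ℂ → ℂ, MeromorphicAt Λ (1 + τ * I) ∧
      (∀ᶠ s in 𝓝 ((1 : ℂ) + τ * I), 1 < s.re → Λ s = L s) ∧
      meromorphicOrderAt Λ (1 + τ * I) = d) ↔ Loc (fun s => L (s + τ * I)) d := by
  have ht : Tendsto (fun s : ℂ => s + τ * I) (𝓝 1) (𝓝 (1 + τ * I)) :=
    (continuous_id.add continuous_const).tendsto 1
  have ht' : Tendsto (fun s : ℂ => s - τ * I) (𝓝 (1 + τ * I)) (𝓝 1) := by
    have h : Continuous fun s : ℂ => s - τ * I := by fun_prop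
    have := h.tendsto (1 + τ * I)
    simpa using this
  constructor
  · rintro ⟨Λ, h1, h2, h3⟩
    obtain ⟨g, g1, g2, g3⟩ := (meromorphicOrderAt_eq_int_iff h1).1 h3
    refine ⟨fun s => g (s + τ * I), ?_, g2, ?_⟩
    · exact AnalyticAt.comp' (g := g) (f := fun s : ℂ => s + τ * I) g1
        (analyticAt_id.add analyticAt_const)
    · rw [eventually_nhdsWithin_iff] at g3
      filter_upwards [ht.eventually h2, ht.eventually g3] with s h4 h5 h6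
      rw [← h4 (by simpa using h6)]
      have h7 : s + τ * I ∈ ({1 + τ * I}ᶜ : Set ℂ) := by
        rw [Set.mem_compl_singleton_iff]
        intro h8
        exact ne_of_re h6 (by linear_combination h8)
      rw [h5 h7, smul_eq_mul]
      congr 2
      ring
  · rintro ⟨g, g1, g2, g3⟩
    have hg : AnalyticAt ℂ (fun s => g (s - τ * I)) (1 + τ * I) := by
      refine AnalyticAt.comp' (g := g) (f := fun s : ℂ => s - τ * I) ?_
        (analyticAt_id.sub analyticAt_const)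
      simpa using g1
    have hm : MeromorphicAt (fun s => (s - (1 + τ * I)) ^ d * g (s - τ * I)) (1 + τ * I) :=
      (((analyticAt_id.sub analyticAt_const).meromorphicAt).zpow d).mul hg.meromorphicAt
    refine ⟨fun s => (s - (1 + τ * I)) ^ d * g (s - τ * I), hm, ?_, ?_⟩
    · filter_upwards [ht'.eventually g3] with s h4 h5
      have h6 := h4 (by simpa using h5)
      rw [sub_add_cancel] at h6
      rw [h6]
      congr 2
      ring
    · rw [meromorphicOrderAt_eq_int_iff hm]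
      refine ⟨_, hg, ?_, Eventually.of_forall fun s => ?_⟩
      · simpa using g2
      · simp

section
variable {κ : Type*} {T : Finset κ} {f : P × ℕ → ℂ} {u : κ → P × ℕ → ℂ}

theorem hs_e (hf : ∀ σ : ℝ, 1 < σ → L2 (wt N σ) f)
    (hu : ∀ p ∈ T, ∀ σ : ℝ, 1 < σ → L2 (wt N σ) (u p)) (d : κ → ℤ) :
    ∀ σ : ℝ, 1 < σ → Summable fun x => wt N σ x * ‖f x - ∑ p ∈ T, (d p : ℂ) * u p x‖ ^ 2 := by
  intro σ hσ
  have c1 : L2 (wt N σ) (fun x => f x + (-1 : ℂ) * ∑ p ∈ T, (d p : ℂ) * u p x) :=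
    L2.add (fun x => wt_nonneg _ x) (hf σ hσ) (L2.smul (fun x => wt_nonneg _ x)
      (L2.sum (fun x => wt_nonneg _ x) T fun p hp =>
        L2.smul (fun x => wt_nonneg _ x) (hu p hp σ hσ) _) _)
  refine c1.congr fun x => ?_
  congr 3
  ring

/-- holomorphy at one point -/
theorem point_iff (hN : NormSys N) (hf : ∀ σ : ℝ, 1 < σ → L2 (wt N σ) f)
    (hu : ∀ p ∈ T, ∀ σ : ℝ, 1 < σ → L2 (wt N σ) (u p)) (d : κ → ℤ) {LD : ℂ → ℂ}
    (hLD : ∀ s : ℂ, 1 < s.re → LD s =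
      cexp (Z N (fun x => ((‖f x - ∑ p ∈ T, (d p : ℂ) * u p x‖ ^ 2 : ℝ) : ℂ)) s)) :
    (∃ R : ℂ → ℂ, AnalyticAt ℂ R 1 ∧ ∀ᶠ s in 𝓝 (1 : ℂ), 1 < s.re → R s = LD s) ↔
      ∃ θ : ℝ, θ < 1 ∧ L2 (wt N θ) (fun x => f x - ∑ p ∈ T, (d p : ℂ) * u p x) := by
  constructor
  · rintro ⟨R, h1, h2⟩
    exact landau_edge hN (fun x => sq_nonneg _) (hs_e hf hu d) h1 (by
      filter_upwards [h2] with s h3 h4
      rw [h3 h4, hLD s h4])
  · rintro ⟨θ, hθ, h1⟩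
    have h2 : ∀ σ, θ < σ →
        Sm N σ (fun x => ((‖f x - ∑ p ∈ T, (d p : ℂ) * u p x‖ ^ 2 : ℝ) : ℂ)) := by
      intro σ hσ
      refine Sm.mono hN (σ := θ) ?_ hσ.le
      refine h1.congr fun x => ?_
      rw [Complex.norm_real, Real.norm_eq_abs, abs_of_nonneg (sq_nonneg _)]
    have hopen : IsOpen {s : ℂ | θ < s.re} := Complex.continuous_re.isOpen_preimage _ isOpen_Ioi
    refine ⟨_, ((Z_diff hN h2).cexp).analyticAt (hopen.mem_nhds (by simpa using hθ)),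
      Eventually.of_forall fun s hs => ?_⟩
    rw [hLD s hs]

/-- holomorphy in a domain -/
theorem domain_iff (hN : NormSys N) (hf : ∀ σ : ℝ, 1 < σ → L2 (wt N σ) f)
    (hu : ∀ p ∈ T, ∀ σ : ℝ, 1 < σ → L2 (wt N σ) (u p)) (d : κ → ℤ) {LD : ℂ → ℂ}
    (hLD : ∀ s : ℂ, 1 < s.re → LD s =
      cexp (Z N (fun x => ((‖f x - ∑ p ∈ T, (d p : ℂ) * u p x‖ ^ 2 : ℝ) : ℂ)) s)) (θ₀ : ℝ) :
    (∃ (D : Set ℂ) (R : ℂ → ℂ), IsOpen D ∧ (∀ x : ℝ, θ₀ < x → (x : ℂ) ∈ D) ∧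
      DifferentiableOn ℂ R D ∧ ∀ s : ℂ, 1 < s.re → R s = LD s) ↔
      ∀ θ : ℝ, θ₀ < θ → L2 (wt N θ) (fun x => f x - ∑ p ∈ T, (d p : ℂ) * u p x) := by
  constructor
  · rintro ⟨D, R, h1, h2, h3, h4⟩
    exact landau_domain hN (fun x => sq_nonneg _) (hs_e hf hu d) h1 h2 h3
      (fun s hs => by rw [h4 s hs, hLD s hs])
  · intro h1
    have h2 : ∀ σ, θ₀ < σ →
        Sm N σ (fun x => ((‖f x - ∑ p ∈ T, (d p : ℂ) * u p x‖ ^ 2 : ℝ) : ℂ)) := by
      intro σ hσ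
      refine (h1 σ hσ).congr fun x => ?_
      rw [Complex.norm_real, Real.norm_eq_abs, abs_of_nonneg (sq_nonneg _)]
    have hopen : IsOpen {s : ℂ | θ₀ < s.re} := Complex.continuous_re.isOpen_preimage _ isOpen_Ioi
    refine ⟨{s : ℂ | θ₀ < s.re}, _, hopen, fun x hx => by simpa using hx,
      (Z_diff hN h2).cexp, fun s hs => ?_⟩
    rw [hLD s hs]

end

/-- counting -/
theorem count (hN : NormSys N) {r : P × ℕ → ℂ} {θ : ℝ} (hθ : 0 ≤ θ) (hr : L2 (wt N θ) r) {ε : ℝ}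
    (hε : 0 < ε) : ∃ C : ℝ, ∀ x : ℝ, 0 ≤ x → ∀ F : Finset P,
      (∀ v ∈ F, (N v : ℝ) ≤ x ∧ ε ≤ ‖r (v, 0)‖) → (F.card : ℝ) ≤ C * x ^ θ := by
  refine ⟨(∑' y, wt N θ y * ‖r y‖ ^ 2) / ε ^ 2, fun x hx F hF => ?_⟩
  rcases F.eq_empty_or_nonempty with rfl | ⟨v0, hv0⟩
  · simp only [Finset.card_empty, Nat.cast_zero]
    exact mul_nonneg (div_nonneg (tsum_nonneg fun y => mul_nonneg (wt_nonneg _ _) (sq_nonneg _))
      (sq_nonneg _)) (Real.rpow_nonneg hx _)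
  have hx0 : 0 < x := by
    have h1 := hN.two_le v0
    have h2 := (hF v0 hv0).1
    have h3 : (0 : ℝ) < N v0 := by exact_mod_cast (by omega : 0 < N v0)
    linarith
  have h1 : ∑ v ∈ F, x ^ (-θ) * ε ^ 2 ≤ ∑ v ∈ F, wt N θ (v, 0) * ‖r (v, 0)‖ ^ 2 := by
    refine Finset.sum_le_sum fun v hv => ?_
    obtain ⟨h2, h3⟩ := hF v hv
    have h4 : x ^ (-θ) ≤ wt N θ (v, 0) := by
      unfold wt
      have h5 : (0 : ℝ) < N v := by
        have := hN.two_le v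
        exact_mod_cast (by omega : 0 < N v)
      have h6 : (N v : ℝ) ^ (-(((0 : ℕ) : ℝ) + 1) * θ) / (((0 : ℕ) : ℝ) + 1) = (N v : ℝ) ^ (-θ) := by
        simp
      have h7 : x ^ (-θ) ≤ (N v : ℝ) ^ (-θ) :=
        Real.rpow_le_rpow_of_nonpos h5 h2 (by linarith)
      simpa using h7
    exact mul_le_mul h4 (pow_le_pow_left₀ hε.le h3 2) (sq_nonneg _) (wt_nonneg _ _)
  have h2 : ∑ v ∈ F, wt N θ (v, 0) * ‖r (v, 0)‖ ^ 2 ≤ ∑' y, wt N θ y * ‖r y‖ ^ 2 := by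
    have h3 : ∑ v ∈ F, wt N θ (v, 0) * ‖r (v, 0)‖ ^ 2 =
        ∑ y ∈ F.map ⟨fun v => (v, 0), fun a b h => by simpa using h⟩,
          wt N θ y * ‖r y‖ ^ 2 := by
      rw [Finset.sum_map]
      rfl
    rw [h3]
    exact Summable.sum_le_tsum _ (fun y _ => mul_nonneg (wt_nonneg _ _) (sq_nonneg _)) hr
  rw [Finset.sum_const, nsmul_eq_mul, Real.rpow_neg hx0.le] at h1
  have h4 : 0 < x ^ θ := Real.rpow_pos_of_pos hx0 _
  have h5 : (F.card : ℝ) * ε ^ 2 ≤ (∑' y, wt N θ y * ‖r y‖ ^ 2) * x ^ θ := by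
    have h6 := h1.trans h2
    have h7 : (F.card : ℝ) * ((x ^ θ)⁻¹ * ε ^ 2) * x ^ θ = F.card * ε ^ 2 := by
      field_simp
    rw [← h7]
    exact mul_le_mul_of_nonneg_right h6 h4.le
  rw [div_mul_eq_mul_div, le_div_iff₀ (by positivity)]
  exact h5

end Pool.Agent.Y853.OP
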