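import Pool.Agent.Y792.FL.Size
import Pool.Agent.Y853.RG.Land

/-! Dirichlet series over prime powers, Landau's lemma at the edge. -/

set_option autoImplicit false

namespace Pool.Agent.Y853.OP

open Complex Filter Topology ComplexConjugate Pool.Agent.W540.BE Pool.Agent.Y792.FL

set_option linter.unusedSectionVars false

variable {P : Type*} [DecidableEq P] {N : P → ℕ}

variable (N) in
/-- complex weights -/
noncomputable def W (s : ℂ) (x : P × ℕ) : ℂ := ((N x.1 : ℕ) : ℂ) ^ (-((x.2 + 1) * s)) / (x.2 + 1)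

theorem norm_W (hN : NormSys N) (s : ℂ) (x : P × ℕ) : ‖W N s x‖ = wt N s.re x := by
  unfold W wt
  rw [norm_div, Complex.norm_natCast_cpow_of_pos (by have := hN.two_le x.1; omega)]
  have h1 : (-((x.2 + 1) * s) : ℂ).re = -((x.2 + 1) * s.re) := by simp
  have h2 : ‖((x.2 : ℂ) + 1)‖ = (x.2 : ℝ) + 1 := by
    have : ((x.2 : ℂ) + 1) = (((x.2 : ℝ) + 1 : ℝ) : ℂ) := by push_cast; ring
    rw [this, Complex.norm_real, Real.norm_eq_abs, abs_of_nonneg (by positivity)]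
  rw [h1, h2]

theorem wt_anti (hN : NormSys N) {σ σ' : ℝ} (h : σ ≤ σ') (x : P × ℕ) : wt N σ' x ≤ wt N σ x := by
  unfold wt
  have h1 : (1 : ℝ) ≤ N x.1 := by
    have := hN.two_le x.1
    exact_mod_cast (by omega : 1 ≤ N x.1)
  have h2 : -(((x.2 : ℝ) + 1) * σ') ≤ -((x.2 + 1) * σ) := by
    have : ((x.2 : ℝ) + 1) * σ ≤ (x.2 + 1) * σ' := by gcongr
    linarith
  exact div_le_div_of_nonneg_right (Real.rpow_le_rpow_of_exponent_le h1 h2) (by positivity)

theorem W_ofReal (σ : ℝ) (x : P × ℕ) : W N (σ : ℂ) x = (wt N σ x : ℂ) := by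
  unfold W wt
  rw [Complex.ofReal_div, Complex.ofReal_cpow (Nat.cast_nonneg _)]
  push_cast
  rfl

theorem conj_W (s : ℂ) (x : P × ℕ) : conj (W N (conj s) x) = W N s x := by
  unfold W
  have h1 : ((N x.1 : ℕ) : ℂ).arg ≠ Real.pi := by
    rw [Complex.natCast_arg]
    exact Real.pi_ne_zero.symm
  have h2 := Complex.cpow_conj ((N x.1 : ℕ) : ℂ) (-((x.2 + 1) * conj s) : ℂ) h1
  rw [Complex.conj_natCast] at h2
  rw [map_div₀, ← h2]
  congr 1
  · congr 1
    simp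
  · simp

theorem W_diff (hN : NormSys N) (x : P × ℕ) : Differentiable ℂ fun s => W N s x := by
  intro s
  unfold W
  have h0 : ((N x.1 : ℕ) : ℂ) ≠ 0 := by
    have := hN.two_le x.1
    exact_mod_cast (by omega : N x.1 ≠ 0)
  refine DifferentiableAt.div_const ?_ _
  exact DifferentiableAt.const_cpow (by fun_prop) (Or.inl h0)

theorem W_shift (hN : NormSys N) {n m : ℕ} (S : Finset P) (γ : P → Fin n → ℂ)
    (δ : P → Fin m → ℂ) (τ τ' : ℝ) (s : ℂ) (x : P × ℕ) :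
    W N s x * (coef N S γ τ x * conj (coef N S δ τ' x)) =
      W N (s + (τ' - τ) * I) x * (coef N S γ 0 x * conj (coef N S δ 0 x)) := by
  unfold coef
  split_ifs with h
  · simp
  · have hN0 : ((N x.1 : ℕ) : ℂ) ≠ 0 := by
      have := hN.two_le x.1
      exact_mod_cast (by omega : N x.1 ≠ 0)
    rw [map_mul, map_mul, conj_cpow hN, conj_cpow hN]
    have key : ((N x.1 : ℕ) : ℂ) ^ (-((x.2 + 1) * s)) *
        (((N x.1 : ℕ) : ℂ) ^ ((x.2 + 1) * (τ * I) : ℂ) *
        ((N x.1 : ℕ) : ℂ) ^ (-((x.2 + 1) * (τ' * I)) : ℂ)) =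
        ((N x.1 : ℕ) : ℂ) ^ (-((x.2 + 1) * (s + (τ' - τ) * I))) *
        (((N x.1 : ℕ) : ℂ) ^ ((x.2 + 1) * ((0 : ℝ) * I) : ℂ) *
          ((N x.1 : ℕ) : ℂ) ^ (-((x.2 + 1) * ((0 : ℝ) * I)) : ℂ)) := by
      rw [← Complex.cpow_add _ _ hN0, ← Complex.cpow_add _ _ hN0, ← Complex.cpow_add _ _ hN0,
        ← Complex.cpow_add _ _ hN0]
      congr 1
      push_cast
      ring
    unfold W
    linear_combination (pw (γ x.1) (x.2 + 1) * conj (pw (δ x.1) (x.2 + 1)) / (x.2 + 1)) * key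

variable (N) in
/-- absolute convergence -/
def Sm (σ : ℝ) (f : P × ℕ → ℂ) : Prop := Summable fun x => wt N σ x * ‖f x‖

variable (N) in
/-- the Dirichlet series -/
noncomputable def Z (f : P × ℕ → ℂ) (s : ℂ) : ℂ := ∑' x, W N s x * f x

theorem Sm.mono (hN : NormSys N) {σ σ' : ℝ} {f : P × ℕ → ℂ} (h : Sm N σ f) (hσ : σ ≤ σ') :
    Sm N σ' f :=
  Summable.of_nonneg_of_le (fun x => mul_nonneg (wt_nonneg _ _) (norm_nonneg _))
    (fun x => mul_le_mul_of_nonneg_right (wt_anti hN hσ x) (norm_nonneg _)) h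

theorem Sm.summ (hN : NormSys N) {σ : ℝ} {f : P × ℕ → ℂ} (h : Sm N σ f) {s : ℂ} (hs : σ ≤ s.re) :
    Summable fun x => W N s x * f x := by
  refine Summable.of_norm_bounded (h.mono hN hs) fun x => ?_
  rw [norm_mul, norm_W hN]

theorem Sm.add {σ : ℝ} {f g : P × ℕ → ℂ} (hf : Sm N σ f) (hg : Sm N σ g) :
    Sm N σ (fun x => f x + g x) := by
  refine Summable.of_nonneg_of_le (fun x => mul_nonneg (wt_nonneg _ _) (norm_nonneg _))
    (fun x => ?_) (Summable.add hf hg)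
  rw [← mul_add]
  exact mul_le_mul_of_nonneg_left (norm_add_le _ _) (wt_nonneg _ _)

theorem Sm.smul {σ : ℝ} {f : P × ℕ → ℂ} (hf : Sm N σ f) (c : ℂ) : Sm N σ (fun x => c * f x) := by
  refine (Summable.mul_left ‖c‖ hf).congr fun x => ?_
  rw [norm_mul]
  ring

theorem Sm.sum {κ : Type*} {σ : ℝ} (T : Finset κ) {u : κ → P × ℕ → ℂ}
    (hu : ∀ p ∈ T, Sm N σ (u p)) : Sm N σ (fun x => ∑ p ∈ T, u p x) := by
  classical
  induction T using Finset.induction_on with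
  | empty => simpa [Sm] using (summable_zero : Summable fun _ : P × ℕ => (0 : ℝ))
  | insert a s ha ih =>
    simp only [Finset.sum_insert ha]
    exact (hu a (Finset.mem_insert_self _ _)).add
      (ih fun p hp => hu p (Finset.mem_insert_of_mem hp))

theorem L2.mono (hN : NormSys N) {σ σ' : ℝ} {f : P × ℕ → ℂ} (h : L2 (wt N σ) f) (hσ : σ ≤ σ') :
    L2 (wt N σ') f :=
  Summable.of_nonneg_of_le (fun x => mul_nonneg (wt_nonneg _ _) (sq_nonneg _))
    (fun x => mul_le_mul_of_nonneg_right (wt_anti hN hσ x) (sq_nonneg _)) h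

theorem wt_mid (hN : NormSys N) (σ σ' : ℝ) (x : P × ℕ) :
    wt N ((σ + σ') / 2) x ^ 2 = wt N σ x * wt N σ' x := by
  unfold wt
  have h1 : (0 : ℝ) < N x.1 := by
    have := hN.two_le x.1
    exact_mod_cast (by omega : 0 < N x.1)
  rw [div_pow, div_mul_div_comm, ← Real.rpow_natCast, ← Real.rpow_mul h1.le, ← Real.rpow_add h1, sq]
  congr 2
  push_cast
  ring

/-- the Cauchy-Schwarz inequality -/
theorem sm_of_L2 (hN : NormSys N) {σ σ' : ℝ} {f g : P × ℕ → ℂ} (hf : L2 (wt N σ) f)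
    (hg : L2 (wt N σ') g) : Sm N ((σ + σ') / 2) (fun x => f x * conj (g x)) := by
  refine Summable.of_nonneg_of_le (fun x => mul_nonneg (wt_nonneg _ _) (norm_nonneg _))
    (fun x => ?_) (Summable.add hf hg)
  rw [norm_mul, Complex.norm_conj]
  have h0 := wt_nonneg (N := N) ((σ + σ') / 2) x
  have h1 := wt_nonneg (N := N) σ x
  have h2 := wt_nonneg (N := N) σ' x
  have h3 := wt_mid hN σ σ' x
  have h4 : wt N ((σ + σ') / 2) x = √(wt N σ x) * √(wt N σ' x) := by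
    rw [← Real.sqrt_mul h1, ← h3, Real.sqrt_sq h0]
  rw [h4]
  have h5 := Real.sq_sqrt h1
  have h6 := Real.sq_sqrt h2
  nlinarith [sq_nonneg (√(wt N σ x) * ‖f x‖ - √(wt N σ' x) * ‖g x‖),
    sq_nonneg (√(wt N σ x) * ‖f x‖), sq_nonneg (√(wt N σ' x) * ‖g x‖)]

theorem Z_diff (hN : NormSys N) {σ0 : ℝ} {f : P × ℕ → ℂ} (h : ∀ σ, σ0 < σ → Sm N σ f) :
    DifferentiableOn ℂ (Z N f) {s : ℂ | σ0 < s.re} := by
  intro s hs
  simp only [Set.mem_setOf_eq] at hs
  have hs1 : σ0 < (σ0 + s.re) / 2 := by linarith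
  have hs2 : (σ0 + s.re) / 2 < s.re := by linarith
  have ho : IsOpen {z : ℂ | (σ0 + s.re) / 2 < z.re} :=
    Complex.continuous_re.isOpen_preimage _ isOpen_Ioi
  have h1 : DifferentiableOn ℂ (fun z => ∑' x, W N z x * f x) {z : ℂ | (σ0 + s.re) / 2 < z.re} := by
    refine differentiableOn_tsum_of_summable_norm (h _ hs1) (fun x => ?_) ho fun x z hz => ?_
    · exact ((W_diff hN x).mul_const _).differentiableOn
    · rw [norm_mul, norm_W hN]
      exact mul_le_mul_of_nonneg_right (wt_anti hN (le_of_lt hz) x) (norm_nonneg _)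
  exact (h1.differentiableAt (ho.mem_nhds hs2)).differentiableWithinAt

theorem Z_add (hN : NormSys N) {σ : ℝ} {f g : P × ℕ → ℂ} (hf : Sm N σ f) (hg : Sm N σ g) {s : ℂ}
    (hs : σ ≤ s.re) : Z N (fun x => f x + g x) s = Z N f s + Z N g s := by
  unfold Z
  rw [← (hf.summ hN hs).tsum_add (hg.summ hN hs)]
  exact tsum_congr fun x => by ring

theorem Z_smul (c : ℂ) (f : P × ℕ → ℂ) (s : ℂ) : Z N (fun x => c * f x) s = c * Z N f s := by
  unfold Z
  rw [← tsum_mul_left]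
  exact tsum_congr fun x => by ring

theorem Z_sum (hN : NormSys N) {κ : Type*} {σ : ℝ} (T : Finset κ) {u : κ → P × ℕ → ℂ}
    (hu : ∀ p ∈ T, Sm N σ (u p)) {s : ℂ} (hs : σ ≤ s.re) :
    Z N (fun x => ∑ p ∈ T, u p x) s = ∑ p ∈ T, Z N (u p) s := by
  unfold Z
  rw [← Summable.tsum_finsetSum fun p hp => (hu p hp).summ hN hs]
  exact tsum_congr fun x => by rw [Finset.mul_sum]

theorem Z_conj (f g : P × ℕ → ℂ) (s : ℂ) :
    conj (Z N (fun x => f x * conj (g x)) (conj s)) = Z N (fun x => g x * conj (f x)) s := by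
  unfold Z
  rw [Complex.conj_tsum]
  refine tsum_congr fun x => ?_
  rw [map_mul, conj_W, map_mul, Complex.conj_conj]
  ring

end Pool.Agent.Y853.OP
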