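import Pool.Agent.Y853.OP.Gen

/-! Landau's lemma for Dirichlet series over prime powers. -/

set_option autoImplicit false

namespace Pool.Agent.Y853.OP

open Complex Filter Topology ComplexConjugate Pool.Agent.W540.BE Pool.Agent.Y792.FL
open scoped ComplexOrder

set_option linter.unusedSectionVars false

variable {P : Type*} [DecidableEq P] {N : P → ℕ}

/-- the prime power as a natural number -/
def nx (N : P → ℕ) (x : P × ℕ) : ℕ := N x.1 ^ (x.2 + 1)

theorem nx_ne (hN : NormSys N) (x : P × ℕ) : nx N x ≠ 0 := by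
  unfold nx
  have := hN.two_le x.1
  exact pow_ne_zero _ (by omega)

theorem wt_nx (σ : ℝ) (x : P × ℕ) : wt N σ x = (nx N x : ℝ) ^ (-σ) / (x.2 + 1) := by
  unfold wt nx
  congr 1
  push_cast
  rw [← Real.rpow_natCast, ← Real.rpow_mul (Nat.cast_nonneg _)]
  congr 1
  push_cast
  ring

theorem W_nx (s : ℂ) (x : P × ℕ) : W N s x = ((nx N x : ℕ) : ℂ) ^ (-s) / (x.2 + 1) := by
  unfold W nx
  congr 1
  push_cast
  have h := Complex.natCast_cpow_natCast_mul (N x.1) (x.2 + 1) (-s)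
  rw [← h]
  congr 1
  push_cast
  ring

/-- the coefficients as a function on the natural numbers -/
noncomputable def dd (N : P → ℕ) (e : P × ℕ → ℝ) (n : ℕ) : ℂ :=
  ((∑' x : {x // nx N x = n}, e x.1 / ((x.1.2 : ℝ) + 1) : ℝ) : ℂ)

theorem dd_nonneg {e : P × ℕ → ℝ} (he : ∀ x, 0 ≤ e x) : 0 ≤ dd N e := by
  intro n
  unfold dd
  have h : 0 ≤ ∑' x : {x // nx N x = n}, e x.1 / ((x.1.2 : ℝ) + 1) :=
    tsum_nonneg fun x => div_nonneg (he _) (by positivity)
  show (0 : ℂ) ≤ _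
  exact_mod_cast h

theorem fib (σ : ℝ) (e : P × ℕ → ℝ) (n : ℕ) (x : {x // nx N x = n}) :
    wt N σ x.1 * e x.1 = (n : ℝ) ^ (-σ) * (e x.1 / ((x.1.2 : ℝ) + 1)) := by
  rw [wt_nx, x.2]
  ring

/-- summability over the fibres -/
theorem summ_iff (hN : NormSys N) {e : P × ℕ → ℝ} (he : ∀ x, 0 ≤ e x) (hfin : ∃ σ : ℝ, Summable
    fun x => wt N σ x * e x) (σ : ℝ) :
    (Summable fun x => wt N σ x * e x) ↔ LSeriesSummable (dd N e) (σ : ℂ) := by
  have key : ∀ τ : ℝ, (Summable fun x => wt N τ x * e x) ↔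
      (∀ n, Summable fun x : {x // nx N x = n} => (n : ℝ) ^ (-τ) * (e x.1 / ((x.1.2 : ℝ) + 1))) ∧
      Summable fun n : ℕ => ∑' x : {x // nx N x = n}, (n : ℝ) ^ (-τ) *
        (e x.1 / ((x.1.2 : ℝ) + 1)) := by
    intro τ
    rw [← (Equiv.sigmaFiberEquiv (nx N)).summable_iff, summable_sigma_of_nonneg]
    · refine and_congr (forall_congr' fun n => ?_) ?_
      · refine summable_congr fun x => ?_
        exact fib τ e n x
      · refine summable_congr fun n => ?_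
        exact tsum_congr fun x => fib τ e n x
    · intro x
      exact mul_nonneg (wt_nonneg _ _) (he _)
  have hfib : ∀ n : ℕ, Summable fun x : {x // nx N x = n} => e x.1 / ((x.1.2 : ℝ) + 1) := by
    obtain ⟨τ, hτ⟩ := hfin
    intro n
    rcases Nat.eq_zero_or_pos n with rfl | hn
    · have : IsEmpty {x : P × ℕ // nx N x = 0} := ⟨fun x => nx_ne hN x.1 x.2⟩
      exact summable_empty
    · have h1 := ((key τ).1 hτ).1 n
      have h2 : ((n : ℝ) ^ (-τ)) ≠ 0 := (Real.rpow_pos_of_pos (by exact_mod_cast hn) _).ne'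
      exact (summable_mul_left_iff h2).1 h1
  rw [key]
  have h3 : (∀ n, Summable fun x : {x // nx N x = n} => (n : ℝ) ^ (-σ) *
      (e x.1 / ((x.1.2 : ℝ) + 1))) := fun n => (hfib n).mul_left _
  have h4 : (fun n : ℕ => ∑' x : {x // nx N x = n}, (n : ℝ) ^ (-σ) *
      (e x.1 / ((x.1.2 : ℝ) + 1))) = fun n : ℕ => (LSeries.term (dd N e) (σ : ℂ) n).re := by
    funext n
    rw [tsum_mul_left]
    rcases Nat.eq_zero_or_pos n with rfl | hn
    · have : IsEmpty {x : P × ℕ // nx N x = 0} := ⟨fun x => nx_ne hN x.1 x.2⟩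
      simp
    · rw [LSeries.term_of_ne_zero (by omega)]
      unfold dd
      have h5 : ((n : ℕ) : ℂ) ^ ((σ : ℝ) : ℂ) = (((n : ℝ) ^ σ : ℝ) : ℂ) := by
        rw [Complex.ofReal_cpow (Nat.cast_nonneg _)]
        simp
      rw [h5, ← Complex.ofReal_div, Complex.ofReal_re, Real.rpow_neg (Nat.cast_nonneg _)]
      ring
  have h6 : LSeriesSummable (dd N e) (σ : ℂ) ↔
      Summable fun n : ℕ => (LSeries.term (dd N e) (σ : ℂ) n).re := by
    unfold LSeriesSummable
    have hnn : ∀ n, 0 ≤ LSeries.term (dd N e) (σ : ℂ) n := fun n =>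
      LSeries.term_nonneg (dd_nonneg he n) σ
    have hre : ∀ n, LSeries.term (dd N e) (σ : ℂ) n =
        ((LSeries.term (dd N e) (σ : ℂ) n).re : ℂ) :=
      fun n => Complex.eq_re_of_ofReal_le (r := 0) (by simpa using hnn n)
    constructor
    · intro h
      exact (Complex.reCLM.summable h).congr fun n => rfl
    · intro h
      exact (Complex.hasSum_ofReal.mpr h.hasSum).summable.congr fun n => (hre n).symm
  rw [h6, ← h4]
  exact ⟨fun h => h.2, fun h => ⟨h3, h⟩⟩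

theorem Z_eq_LSeries (hN : NormSys N) {e : P × ℕ → ℝ} (he : ∀ x, 0 ≤ e x) {σ : ℝ}
    (hs : Summable fun x => wt N σ x * e x) {s : ℂ} (hσ : σ ≤ s.re) :
    Z N (fun x => (e x : ℂ)) s = LSeries (dd N e) s := by
  have hsm : Sm N σ (fun x => (e x : ℂ)) := by
    refine hs.congr fun x => ?_
    rw [Complex.norm_real, Real.norm_eq_abs, abs_of_nonneg (he x)]
  have h1 := hsm.summ hN hσ
  unfold Z LSeries
  rw [← (Equiv.sigmaFiberEquiv (nx N)).tsum_eq]
  have h2 : Summable ((fun x => W N s x * (e x : ℂ)) ∘ (Equiv.sigmaFiberEquiv (nx N))) :=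
    (Equiv.sigmaFiberEquiv (nx N)).summable_iff.2 h1
  have h3 := h2.tsum_sigma
  simp only [Function.comp_def] at h3
  rw [h3]
  refine tsum_congr fun n => ?_
  rcases Nat.eq_zero_or_pos n with rfl | hn
  · have : IsEmpty {x : P × ℕ // nx N x = 0} := ⟨fun x => nx_ne hN x.1 x.2⟩
    simp
  · rw [LSeries.term_of_ne_zero (by omega)]
    unfold dd
    have h4 : ∀ x : {x // nx N x = n}, W N s ((Equiv.sigmaFiberEquiv (nx N)) ⟨n, x⟩) *
        (e ((Equiv.sigmaFiberEquiv (nx N)) ⟨n, x⟩) : ℂ) =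
        ((n : ℕ) : ℂ) ^ (-s) * ((e x.1 / ((x.1.2 : ℝ) + 1) : ℝ) : ℂ) := by
      intro x
      have h5 : (Equiv.sigmaFiberEquiv (nx N)) ⟨n, x⟩ = x.1 := rfl
      rw [h5, W_nx, x.2]
      push_cast
      ring
    rw [tsum_congr h4, tsum_mul_left, ← Complex.ofReal_tsum, Complex.cpow_neg]
    ring

/-- **Landau's lemma at the edge.** -/
theorem landau_edge (hN : NormSys N) {e : P × ℕ → ℝ} (he : ∀ x, 0 ≤ e x)
    (hs : ∀ σ : ℝ, 1 < σ → Summable fun x => wt N σ x * e x) {R : ℂ → ℂ} (hR : AnalyticAt ℂ R 1)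
    (hRe : ∀ᶠ s in 𝓝 (1 : ℂ), 1 < s.re → cexp (Z N (fun x => (e x : ℂ)) s) = R s) :
    ∃ θ : ℝ, θ < 1 ∧ Summable fun x => wt N θ x * e x := by
  have hfin : ∃ σ : ℝ, Summable fun x => wt N σ x * e x := ⟨2, hs 2 (by norm_num)⟩
  have h1 : ∀ᶠ s in 𝓝 (1 : ℂ), AnalyticAt ℂ R s ∧
      (1 < s.re → cexp (Z N (fun x => (e x : ℂ)) s) = R s) :=
    hR.eventually_analyticAt.and hRe
  obtain ⟨r, hr, hball⟩ := Metric.eventually_nhds_iff_ball.1 h1
  have hls : ∀ s : ℂ, 1 < s.re → LSeriesSummable (dd N e) s := by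
    intro s h
    have h2 := (summ_iff hN he hfin s.re).1 (hs s.re h)
    exact h2.of_re_le_re (by simp)
  have hcr : ∀ z ∈ Metric.ball (((1 + r / 3 : ℝ) : ℂ)) (2 * r / 3), z ∈ Metric.ball (1 : ℂ) r := by
    intro z hz
    rw [Metric.mem_ball] at hz ⊢
    have h3 : dist ((1 + r / 3 : ℝ) : ℂ) (1 : ℂ) = r / 3 := by
      rw [dist_eq_norm]
      have : ((1 + r / 3 : ℝ) : ℂ) - 1 = ((r / 3 : ℝ) : ℂ) := by push_cast; ring
      rw [this, Complex.norm_real, Real.norm_eq_abs, abs_of_pos (by positivity)]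
    calc dist z 1 ≤ dist z ((1 + r / 3 : ℝ) : ℂ) + dist ((1 + r / 3 : ℝ) : ℂ) 1 :=
          dist_triangle _ _ _
      _ < 2 * r / 3 + r / 3 := by rw [h3]; linarith
      _ = r := by ring
  have hdiff : DifferentiableOn ℂ R (Metric.ball (((1 + r / 3 : ℝ) : ℂ)) (2 * r / 3)) :=
    fun z hz => (hball z (hcr z hz)).1.differentiableAt.differentiableWithinAt
  have hopen : IsOpen {s : ℂ | 1 < s.re} := Complex.continuous_re.isOpen_preimage _ isOpen_Ioi
  have hev : ∀ᶠ s in 𝓝 (((1 + r / 3 : ℝ)) : ℂ), R s = cexp (LSeries (dd N e) s) := by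
    filter_upwards [hopen.mem_nhds (show (((1 + r / 3 : ℝ)) : ℂ) ∈ {s : ℂ | 1 < s.re} by
      simp; positivity), Metric.ball_mem_nhds _ (show (0 : ℝ) < 2 * r / 3 by positivity)] with s h2 h3
    have h4 := (hball s (hcr s h3)).2 h2
    have h2' : 1 < s.re := h2
    rw [← h4, Z_eq_LSeries hN he (hs ((1 + s.re) / 2) (by linarith)) (by linarith)]
  have h5 := Pool.Agent.Y853.RG.exp_landau_ball (dd_nonneg he) (c := 1 + r / 3) (r := 2 * r / 3)
    (x0 := 1) (by linarith) hdiff hls hev (x := 1 - r / 6) (by linarith) (by linarith)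
  exact ⟨1 - r / 6, by linarith, (summ_iff hN he hfin _).2 h5⟩

/-- **Landau's lemma in a domain.** -/
theorem landau_domain (hN : NormSys N) {e : P × ℕ → ℝ} (he : ∀ x, 0 ≤ e x)
    (hs : ∀ σ : ℝ, 1 < σ → Summable fun x => wt N σ x * e x) {R : ℂ → ℂ} {θ : ℝ} {D : Set ℂ}
    (hD : IsOpen D) (hreal : ∀ x : ℝ, θ < x → (x : ℂ) ∈ D) (hR : DifferentiableOn ℂ R D)
    (hRe : ∀ s : ℂ, 1 < s.re → cexp (Z N (fun x => (e x : ℂ)) s) = R s) :
    ∀ σ : ℝ, θ < σ → Summable fun x => wt N σ x * e x := by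
  intro σ hσ
  have hfin : ∃ σ : ℝ, Summable fun x => wt N σ x * e x := ⟨2, hs 2 (by norm_num)⟩
  rw [summ_iff hN he hfin]
  refine Pool.Agent.Y853.RG.landau_dom (dd_nonneg he) hD hreal hR (fun s h => ?_) (fun s h => ?_) hσ
  · have h2 := (summ_iff hN he hfin s.re).1 (hs s.re h)
    exact h2.of_re_le_re (by simp)
  · rw [← hRe s h, Z_eq_LSeries hN he (hs ((1 + s.re) / 2) (by linarith)) (by linarith)]

end Pool.Agent.Y853.OP
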