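import Pool.Agent.Y853.OP.Land

/-! The order at one point and the power saving in the mean square. -/

set_option autoImplicit false

namespace Pool.Agent.Y853.OP

open Complex Filter Topology ComplexConjugate Pool.Agent.W540.BE Pool.Agent.Y792.FL

set_option linter.unusedSectionVars false

/-- `F` continues to a neighbourhood of `1`, with order `d` -/
def Loc (F : ℂ → ℂ) (d : ℤ) : Prop :=
  ∃ g : ℂ → ℂ, AnalyticAt ℂ g 1 ∧ g 1 ≠ 0 ∧ ∀ᶠ s in 𝓝 (1 : ℂ), 1 < s.re → F s = (s - 1) ^ d * g s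

theorem Loc.congr {F G : ℂ → ℂ} {d : ℤ} (hF : Loc F d)
    (h : ∀ᶠ s in 𝓝 (1 : ℂ), 1 < s.re → G s = F s) : Loc G d := by
  obtain ⟨g, h1, h2, h3⟩ := hF
  refine ⟨g, h1, h2, ?_⟩
  filter_upwards [h, h3] with s h4 h5 h6
  rw [h4 h6, h5 h6]

theorem ne_of_re {s : ℂ} (h : 1 < s.re) : s - 1 ≠ 0 := by
  intro h0
  have : s = 1 := by linear_combination h0
  rw [this] at h
  simp at h

theorem Loc.mul {F G : ℂ → ℂ} {a b : ℤ} (hF : Loc F a) (hG : Loc G b) :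
    Loc (fun s => F s * G s) (a + b) := by
  obtain ⟨g, h1, h2, h3⟩ := hF
  obtain ⟨g', h1', h2', h3'⟩ := hG
  refine ⟨fun s => g s * g' s, h1.mul h1', mul_ne_zero h2 h2', ?_⟩
  filter_upwards [h3, h3'] with s h4 h5 h6
  rw [h4 h6, h5 h6, zpow_add₀ (ne_of_re h6)]
  ring

theorem Loc.zpow {F : ℂ → ℂ} {a : ℤ} (hF : Loc F a) (k : ℤ) : Loc (fun s => F s ^ k) (a * k) := by
  obtain ⟨g, h1, h2, h3⟩ := hF
  refine ⟨fun s => g s ^ k, h1.zpow h2, zpow_ne_zero k h2, ?_⟩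
  filter_upwards [h3] with s h4 h6
  rw [h4 h6, mul_zpow, zpow_mul]

theorem Loc.prod {κ : Type*} (T : Finset κ) {F : κ → ℂ → ℂ} {a : κ → ℤ}
    (hF : ∀ p ∈ T, Loc (F p) (a p)) : Loc (fun s => ∏ p ∈ T, F p s) (∑ p ∈ T, a p) := by
  classical
  induction T using Finset.induction_on with
  | empty =>
    refine ⟨fun _ => 1, analyticAt_const, one_ne_zero, Eventually.of_forall fun s _ => ?_⟩
    simp
  | insert q T' ha ih =>
    simp only [Finset.prod_insert ha, Finset.sum_insert ha]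
    exact (hF q (Finset.mem_insert_self _ _)).mul
      (ih fun p hp => hF p (Finset.mem_insert_of_mem hp))

theorem Loc.refl {F : ℂ → ℂ} {a : ℤ} (hF : Loc F a) : Loc (fun s => conj (F (conj s))) a := by
  obtain ⟨g, h1, h2, h3⟩ := hF
  have hc : Tendsto (fun s : ℂ => conj s) (𝓝 1) (𝓝 1) := by
    have := Complex.continuous_conj.tendsto (1 : ℂ)
    simpa using this
  refine ⟨fun s => conj (g (conj s)), ?_, ?_, ?_⟩
  · have h4 : ∀ᶠ s in 𝓝 (1 : ℂ), AnalyticAt ℂ g s := h1.eventually_analyticAt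
    refine Complex.analyticAt_iff_eventually_differentiableAt.2 ?_
    filter_upwards [hc.eventually h4] with s h5
    have := h5.differentiableAt.conj_conj
    rw [Complex.conj_conj] at this
    exact this
  · simp only [map_one]
    exact fun h => h2 (by simpa using h)
  · filter_upwards [hc.eventually h3] with s h5 h6
    rw [h5 (by simpa using h6), map_mul, map_zpow₀, map_sub, Complex.conj_conj, map_one]

/-- an analytic function without a zero -/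
theorem loc_zero {g : ℂ → ℂ} (h1 : AnalyticAt ℂ g 1) (h2 : g 1 ≠ 0) : Loc g 0 :=
  ⟨g, h1, h2, Eventually.of_forall fun s _ => by simp⟩

variable {P : Type*} [DecidableEq P] {N : P → ℕ}

variable (N) in
/-- the exponential of the Dirichlet series of `f · conj g` -/
noncomputable def E (f g : P × ℕ → ℂ) (s : ℂ) : ℂ := cexp (Z N (fun x => f x * conj (g x)) s)

theorem E_conj (f g : P × ℕ → ℂ) (s : ℂ) : conj (E N f g (conj s)) = E N g f s := by
  unfold E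
  rw [← Complex.exp_conj, Z_conj]

theorem E_ne (f g : P × ℕ → ℂ) (s : ℂ) : E N f g s ≠ 0 := Complex.exp_ne_zero _

section
variable {κ : Type*} {T : Finset κ} {f : P × ℕ → ℂ} {u : κ → P × ℕ → ℂ}

/-- the expansion -/
theorem expand (d : κ → ℤ) (x : P × ℕ) :
    ((‖f x - ∑ p ∈ T, (d p : ℂ) * u p x‖ ^ 2 : ℝ) : ℂ) =
      (f x * conj (f x) + ∑ p ∈ T, ((-d p : ℤ) : ℂ) * (f x * conj (u p x))) +
        (∑ p ∈ T, ((-d p : ℤ) : ℂ) * (u p x * conj (f x)) +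
          ∑ p ∈ T, ∑ r ∈ T, ((d p * d r : ℤ) : ℂ) * (u p x * conj (u r x))) := by
  have h1 : ((‖f x - ∑ p ∈ T, (d p : ℂ) * u p x‖ ^ 2 : ℝ) : ℂ) =
      (f x - ∑ p ∈ T, (d p : ℂ) * u p x) * conj (f x - ∑ p ∈ T, (d p : ℂ) * u p x) := by
    rw [Complex.mul_conj, Complex.normSq_eq_norm_sq]
  have h2 : conj (f x - ∑ p ∈ T, (d p : ℂ) * u p x) =
      conj (f x) - ∑ p ∈ T, (d p : ℂ) * conj (u p x) := by
    rw [map_sub, map_sum]
    congr 1
    refine Finset.sum_congr rfl fun p _ => ?_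
    rw [map_mul]
    simp
  have h3 : (∑ p ∈ T, (d p : ℂ) * u p x) * (∑ p ∈ T, (d p : ℂ) * conj (u p x)) =
      ∑ p ∈ T, ∑ r ∈ T, ((d p * d r : ℤ) : ℂ) * (u p x * conj (u r x)) := by
    rw [Finset.sum_mul_sum]
    refine Finset.sum_congr rfl fun p _ => Finset.sum_congr rfl fun r _ => ?_
    push_cast
    ring
  have h4 : ∑ p ∈ T, ((-d p : ℤ) : ℂ) * (f x * conj (u p x)) =
      -(f x * ∑ p ∈ T, (d p : ℂ) * conj (u p x)) := by
    rw [Finset.mul_sum, ← Finset.sum_neg_distrib]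
    refine Finset.sum_congr rfl fun p _ => ?_
    push_cast
    ring
  have h5 : ∑ p ∈ T, ((-d p : ℤ) : ℂ) * (u p x * conj (f x)) =
      -((∑ p ∈ T, (d p : ℂ) * u p x) * conj (f x)) := by
    rw [Finset.sum_mul, ← Finset.sum_neg_distrib]
    refine Finset.sum_congr rfl fun p _ => ?_
    push_cast
    ring
  rw [h1, h2, h4, h5, ← h3]
  ring

theorem exp_Z_sum (hN : NormSys N) {κ : Type*} {σ : ℝ} (T : Finset κ) {g : κ → P × ℕ → ℂ}
    (c : κ → ℤ) (hg : ∀ p ∈ T, Sm N σ (g p)) {s : ℂ} (hs : σ ≤ s.re) :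
    cexp (Z N (fun x => ∑ p ∈ T, (c p : ℂ) * g p x) s) = ∏ p ∈ T, cexp (Z N (g p) s) ^ c p := by
  rw [Z_sum hN T (fun p hp => (hg p hp).smul _) hs, Complex.exp_sum]
  refine Finset.prod_congr rfl fun p _ => ?_
  rw [Z_smul, Complex.exp_int_mul]

variable (hN : NormSys N) (hf : ∀ σ : ℝ, 1 < σ → L2 (wt N σ) f)
  (hu : ∀ p ∈ T, ∀ σ : ℝ, 1 < σ → L2 (wt N σ) (u p))

theorem sm1 (hN : NormSys N) {f g : P × ℕ → ℂ} (hf : ∀ σ : ℝ, 1 < σ → L2 (wt N σ) f)
    (hg : ∀ σ : ℝ, 1 < σ → L2 (wt N σ) g) {σ : ℝ} (hσ : 1 < σ) :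
    Sm N σ (fun x => f x * conj (g x)) := by
  have := sm_of_L2 hN (hf σ hσ) (hg σ hσ)
  rwa [add_self_div_two] at this

include hN hf hu

/-- the product formula -/
theorem exp_e (d : κ → ℤ) {s : ℂ} (hs : 1 < s.re) :
    cexp (Z N (fun x => ((‖f x - ∑ p ∈ T, (d p : ℂ) * u p x‖ ^ 2 : ℝ) : ℂ)) s) =
      (E N f f s * ∏ p ∈ T, E N f (u p) s ^ (-d p)) *
        ((∏ p ∈ T, E N (u p) f s ^ (-d p)) * ∏ p ∈ T, ∏ r ∈ T, E N (u p) (u r) s ^ (d p * d r)) := by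
  have h1 : (fun x => ((‖f x - ∑ p ∈ T, (d p : ℂ) * u p x‖ ^ 2 : ℝ) : ℂ)) = fun x =>
      (f x * conj (f x) + ∑ p ∈ T, ((-d p : ℤ) : ℂ) * (f x * conj (u p x))) +
        (∑ p ∈ T, ((-d p : ℤ) : ℂ) * (u p x * conj (f x)) +
          ∑ p ∈ T, ∑ r ∈ T, ((d p * d r : ℤ) : ℂ) * (u p x * conj (u r x))) := by
    funext x
    exact expand d x
  set σ : ℝ := s.re with hσ
  have a1 : Sm N σ (fun x => f x * conj (f x)) := sm1 hN hf hf hs
  have a2 : ∀ p ∈ T, Sm N σ (fun x => f x * conj (u p x)) := fun p hp => sm1 hN hf (hu p hp) hs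
  have a3 : ∀ p ∈ T, Sm N σ (fun x => u p x * conj (f x)) := fun p hp => sm1 hN (hu p hp) hf hs
  have a4 : ∀ p ∈ T, ∀ r ∈ T, Sm N σ (fun x => u p x * conj (u r x)) :=
    fun p hp r hr => sm1 hN (hu p hp) (hu r hr) hs
  have b2 := Sm.sum T fun p hp => (a2 p hp).smul ((-d p : ℤ) : ℂ)
  have b3 := Sm.sum T fun p hp => (a3 p hp).smul ((-d p : ℤ) : ℂ)
  have b4 := Sm.sum T fun p hp => Sm.sum T fun r hr => (a4 p hp r hr).smul ((d p * d r : ℤ) : ℂ)
  rw [h1, Z_add hN (a1.add b2) (b3.add b4) le_rfl, Z_add hN a1 b2 le_rfl, Z_add hN b3 b4 le_rfl,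
    Complex.exp_add, Complex.exp_add, Complex.exp_add, exp_Z_sum hN T (fun p => -d p) a2 le_rfl,
    exp_Z_sum hN T (fun p => -d p) a3 le_rfl,
    Z_sum hN T (fun p hp => Sm.sum T fun r hr => (a4 p hp r hr).smul ((d p * d r : ℤ) : ℂ)) le_rfl,
    Complex.exp_sum]
  congr 2
  refine Finset.prod_congr rfl fun p hp => ?_
  exact exp_Z_sum hN T (fun r => d p * d r) (a4 p hp) le_rfl

/-- **The orders at one point give a power saving.** -/
theorem loc_land [DecidableEq κ] (d : κ → ℤ) {M : ℤ} (hM : M ≤ ∑ p ∈ T, d p ^ 2)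
    (h1 : Loc (E N f f) (-M)) (h2 : ∀ p ∈ T, Loc (E N f (u p)) (-d p))
    (h3 : ∀ p ∈ T, ∀ r ∈ T, Loc (E N (u p) (u r)) (if p = r then -1 else 0)) :
    ∃ θ : ℝ, θ < 1 ∧ L2 (wt N θ) (fun x => f x - ∑ p ∈ T, (d p : ℂ) * u p x) := by
  have h2' : ∀ p ∈ T, Loc (E N (u p) f) (-d p) := by
    intro p hp
    refine (h2 p hp).refl.congr (Eventually.of_forall fun s _ => ?_)
    exact (E_conj _ _ _).symm
  have hloc := (h1.mul (Loc.prod T fun p hp => (h2 p hp).zpow (-d p))).mul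
    ((Loc.prod T fun p hp => (h2' p hp).zpow (-d p)).mul
      (Loc.prod T fun p hp => Loc.prod T fun r hr => (h3 p hp r hr).zpow (d p * d r)))
  have hord : (-M + ∑ p ∈ T, -d p * -d p) + (∑ p ∈ T, -d p * -d p +
      ∑ p ∈ T, ∑ r ∈ T, (if p = r then -1 else 0) * (d p * d r)) = (∑ p ∈ T, d p ^ 2) - M := by
    have e1 : ∑ p ∈ T, ∑ r ∈ T, (if p = r then (-1 : ℤ) else 0) * (d p * d r) =
        ∑ p ∈ T, -(d p ^ 2) := by
      refine Finset.sum_congr rfl fun p hp => ?_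
      simp only [ite_mul, zero_mul]
      rw [Finset.sum_ite_eq T p, if_pos hp]
      ring
    have e2 : ∑ p ∈ T, -d p * -d p = ∑ p ∈ T, d p ^ 2 :=
      Finset.sum_congr rfl fun p _ => by ring
    rw [e1, e2, Finset.sum_neg_distrib]
    ring
  rw [hord] at hloc
  obtain ⟨g, g1, -, g3⟩ := hloc
  obtain ⟨k, hk⟩ := Int.eq_ofNat_of_zero_le (sub_nonneg.2 hM)
  have hs : ∀ σ : ℝ, 1 < σ → Summable fun x => wt N σ x *
      ‖f x - ∑ p ∈ T, (d p : ℂ) * u p x‖ ^ 2 := by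
    intro σ hσ
    have c1 : L2 (wt N σ) (fun x => f x + (-1 : ℂ) * ∑ p ∈ T, (d p : ℂ) * u p x) :=
      L2.add (fun x => wt_nonneg _ x) (hf σ hσ) (L2.smul (fun x => wt_nonneg _ x)
        (L2.sum (fun x => wt_nonneg _ x) T fun p hp =>
          L2.smul (fun x => wt_nonneg _ x) (hu p hp σ hσ) _) _)
    refine c1.congr fun x => ?_
    congr 3
    ring
  have han : AnalyticAt ℂ (fun s : ℂ => (s - 1) ^ k * g s) 1 :=
    ((analyticAt_id.sub analyticAt_const).pow k).mul g1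
  obtain ⟨θ, hθ, hsum⟩ := landau_edge hN (fun x => sq_nonneg _) hs han (by
    filter_upwards [g3] with s h4 h5
    rw [exp_e hN hf hu d h5, h4 h5, hk]
    simp)
  exact ⟨θ, hθ, hsum⟩

/-- the twist formula -/
theorem twist (d : κ → ℤ) {θ : ℝ} (hθ : θ < 1)
    (hr : L2 (wt N θ) (fun x => f x - ∑ p ∈ T, (d p : ℂ) * u p x)) {g : P × ℕ → ℂ}
    (hg : ∀ σ : ℝ, 1 < σ → L2 (wt N σ) g) :
    DifferentiableOn ℂ (E N (fun x => f x - ∑ p ∈ T, (d p : ℂ) * u p x) g)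
      {s : ℂ | (1 + θ) / 2 < s.re} ∧
    ∀ s : ℂ, 1 < s.re → E N f g s =
      E N (fun x => f x - ∑ p ∈ T, (d p : ℂ) * u p x) g s * ∏ p ∈ T, E N (u p) g s ^ d p := by
  have h1 : ∀ σ, (1 + θ) / 2 < σ →
      Sm N σ (fun x => (f x - ∑ p ∈ T, (d p : ℂ) * u p x) * conj (g x)) := by
    intro σ hσ
    have h2 := sm_of_L2 hN hr (hg (2 * σ - θ) (by linarith))
    have h3 : (θ + (2 * σ - θ)) / 2 = σ := by ring
    rwa [h3] at h2
  refine ⟨(Z_diff hN h1).cexp, fun s hs => ?_⟩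
  have h4 : (fun x => f x * conj (g x)) = fun x =>
      (f x - ∑ p ∈ T, (d p : ℂ) * u p x) * conj (g x) +
        ∑ p ∈ T, (d p : ℂ) * (u p x * conj (g x)) := by
    funext x
    have : ∑ p ∈ T, (d p : ℂ) * (u p x * conj (g x)) =
        (∑ p ∈ T, (d p : ℂ) * u p x) * conj (g x) := by
      rw [Finset.sum_mul]
      exact Finset.sum_congr rfl fun p _ => by ring
    rw [this]
    ring
  have h5 : ∀ p ∈ T, Sm N s.re (fun x => u p x * conj (g x)) :=
    fun p hp => sm1 hN (hu p hp) hg hs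
  unfold E
  rw [h4, Z_add hN (h1 s.re (by linarith)) (Sm.sum T fun p hp => (h5 p hp).smul (d p : ℂ)) le_rfl,
    Complex.exp_add, exp_Z_sum hN T d h5 le_rfl]

/-- **The power saving gives the orders.** -/
theorem loc_conv [DecidableEq κ] (d : κ → ℤ) {θ : ℝ} (hθ : θ < 1)
    (hr : L2 (wt N θ) (fun x => f x - ∑ p ∈ T, (d p : ℂ) * u p x))
    (h3 : ∀ p ∈ T, ∀ r ∈ T, Loc (E N (u p) (u r)) (if p = r then -1 else 0)) :
    Loc (E N f f) (-∑ p ∈ T, d p ^ 2) ∧ ∀ p ∈ T, Loc (E N f (u p)) (-d p) := by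
  have hopen : IsOpen {s : ℂ | (1 + θ) / 2 < s.re} :=
    Complex.continuous_re.isOpen_preimage _ isOpen_Ioi
  have h1mem : (1 : ℂ) ∈ {s : ℂ | (1 + θ) / 2 < s.re} := by
    simp only [Set.mem_setOf_eq, Complex.one_re]
    linarith
  have hloc : ∀ g : P × ℕ → ℂ, (∀ σ : ℝ, 1 < σ → L2 (wt N σ) g) →
      Loc (E N (fun x => f x - ∑ p ∈ T, (d p : ℂ) * u p x) g) 0 := fun g hg =>
    loc_zero ((twist hN hf hu d hθ hr hg).1.analyticAt (hopen.mem_nhds h1mem)) (E_ne _ _ _)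
  have hfu : ∀ q ∈ T, Loc (E N f (u q)) (-d q) := by
    intro q hq
    have h4 := (hloc (u q) (hu q hq)).mul (Loc.prod T fun p hp => (h3 p hp q hq).zpow (d p))
    have h5 : 0 + ∑ p ∈ T, (if p = q then (-1 : ℤ) else 0) * d p = -d q := by
      simp only [ite_mul, zero_mul]
      rw [Finset.sum_ite_eq' T q, if_pos hq]
      ring
    rw [h5] at h4
    refine h4.congr (Eventually.of_forall fun s hs => ?_)
    exact (twist hN hf hu d hθ hr (hu q hq)).2 s hs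
  refine ⟨?_, hfu⟩
  have hfu' : ∀ p ∈ T, Loc (E N (u p) f) (-d p) := by
    intro p hp
    refine (hfu p hp).refl.congr (Eventually.of_forall fun s _ => ?_)
    exact (E_conj _ _ _).symm
  have h4 := (hloc f hf).mul (Loc.prod T fun p hp => (hfu' p hp).zpow (d p))
  have h5 : 0 + ∑ p ∈ T, -d p * d p = -∑ p ∈ T, d p ^ 2 := by
    rw [← Finset.sum_neg_distrib, zero_add]
    exact Finset.sum_congr rfl fun p _ => by ring
  rw [h5] at h4
  refine h4.congr (Eventually.of_forall fun s hs => ?_)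
  exact (twist hN hf hu d hθ hr hf).2 s hs

end

end Pool.Agent.Y853.OP
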